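import Mathlib
import Pool.Agent.Run7.h956.Potential

set_option autoImplicit false

/-!
# MP_541d70_co: the property `Sz(r)` for alcoved polytopes

An alcoved polytope is a convex body `{x ∈ ℝ^n : x_b - x_a ≤ c_ab for (a,b) ∈ A}`, where `x_0 = 0`
and `A` is a set of arcs on the vertices `0, ..., n`.  If no inequality is redundant, it has the
property `Sz(r)` if and only if every directed cycle of `A` has at most `r + 1` arcs.
-/

namespace Pool.Agent.Results.MP_541d70_co.AlcovedPolytopes

open Pointwise

/-- The property `Sz(r)`: for every finite family of translates of `F`, if every subfamily of at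
most `r + 1` of them has a common point, then all of them have a common point. -/
def Sz {n : ℕ} (r : ℕ) (F : Set (EuclideanSpace ℝ (Fin n))) : Prop :=
  ∀ (s : ℕ) (t : Fin s → EuclideanSpace ℝ (Fin n)),
    (∀ J : Finset (Fin s), J.card ≤ r + 1 → (⋂ j ∈ J, (t j +ᵥ F)).Nonempty) →
      (⋂ j, (t j +ᵥ F)).Nonempty

/-- The coordinates `(0, x_1, ..., x_n)`, indexed by `0, ..., n`. -/
def hat {n : ℕ} (x : EuclideanSpace ℝ (Fin n)) : Fin (n + 1) → ℝ :=
  Fin.cons (0 : ℝ) (fun i => x i)

/-- The polyhedron of all `x` with `x_b - x_a ≤ c (a, b)` for the arcs `(a, b) ∈ A`, where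
`x_0 = 0`. -/
def alcoved {n : ℕ} (A : Finset (Fin (n + 1) × Fin (n + 1)))
    (c : Fin (n + 1) × Fin (n + 1) → ℝ) : Set (EuclideanSpace ℝ (Fin n)) :=
  {x | ∀ a ∈ A, hat x a.2 - hat x a.1 ≤ c a}

/-- Every inequality is facet-defining: for each arc there is a point of the polyhedron at which
the inequality of this arc is an equality and those of all other arcs are strict. -/
def Irredundant {n : ℕ} (A : Finset (Fin (n + 1) × Fin (n + 1)))
    (c : Fin (n + 1) × Fin (n + 1) → ℝ) : Prop :=
  ∀ a ∈ A, ∃ p : EuclideanSpace ℝ (Fin n), hat p a.2 - hat p a.1 = c a ∧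
    ∀ a' ∈ A, a' ≠ a → hat p a'.2 - hat p a'.1 < c a'

variable {n : ℕ}

lemma mem_vadd {F : Set (EuclideanSpace ℝ (Fin n))} (x t : EuclideanSpace ℝ (Fin n)) :
    x ∈ t +ᵥ F ↔ x - t ∈ F := by
  rw [Set.mem_vadd_set_iff_neg_vadd_mem, vadd_eq_add, neg_add_eq_sub]

/-- The linear functional of an arc. -/
noncomputable def D (a : Fin (n + 1) × Fin (n + 1)) : EuclideanSpace ℝ (Fin n) →ₗ[ℝ] ℝ where
  toFun x := hat x a.2 - hat x a.1
  map_add' x y := by
    have h : ∀ b, hat (x + y) b = hat x b + hat y b := by
      intro b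
      refine Fin.cases ?_ (fun i => ?_) b <;> simp [hat]
    rw [h, h]; ring
  map_smul' t x := by
    have h : ∀ b, hat (t • x) b = t * hat x b := by
      intro b
      refine Fin.cases ?_ (fun i => ?_) b <;> simp [hat]
    rw [h, h]; simp only [RingHom.id_apply, smul_eq_mul]; ring

lemma D_apply (a : Fin (n + 1) × Fin (n + 1)) (x : EuclideanSpace ℝ (Fin n)) :
    D a x = hat x a.2 - hat x a.1 := rfl

/-- The point with homogeneous coordinates `f`. -/
noncomputable def red (f : Fin (n + 1) → ℝ) : EuclideanSpace ℝ (Fin n) :=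
  WithLp.toLp 2 fun i => f i.succ - f 0

lemma hat_red (f : Fin (n + 1) → ℝ) (b : Fin (n + 1)) : hat (red f) b = f b - f 0 := by
  refine Fin.cases ?_ (fun i => ?_) b <;> simp [hat, red]

lemma D_red (a : Fin (n + 1) × Fin (n + 1)) (f : Fin (n + 1) → ℝ) :
    D a (red f) = f a.2 - f a.1 := by
  rw [D_apply, hat_red, hat_red]; ring

lemma mem_alcoved (A : Finset (Fin (n + 1) × Fin (n + 1)))
    (c : Fin (n + 1) × Fin (n + 1) → ℝ) (x : EuclideanSpace ℝ (Fin n)) :
    x ∈ alcoved A c ↔ ∀ a ∈ A, D a x ≤ c a := Iff.rfl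

/-- In a bounded nonempty alcoved polytope there is no set of vertices containing `0`, not all
the vertices, which no arc leaves; and none which no arc enters. -/
lemma no_ray {A : Finset (Fin (n + 1) × Fin (n + 1))} {c : Fin (n + 1) × Fin (n + 1) → ℝ}
    (hcomp : IsCompact (alcoved A c)) (hne : (alcoved A c).Nonempty) (f : Fin (n + 1) → ℝ)
    (hf : ∀ a ∈ A, f a.2 - f a.1 ≤ 0) (b : Fin (n + 1)) : f b = f 0 := by
  obtain ⟨x, hx⟩ := hne
  have hray : ∀ T : ℝ, 0 ≤ T → x + T • red f ∈ alcoved A c := by
    intro T hT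
    rw [mem_alcoved]
    intro a ha
    rw [map_add, map_smul, D_red, smul_eq_mul]
    have h1 := hx a ha
    rw [← D_apply] at h1
    have h2 := mul_nonneg hT (sub_nonneg.2 (hf a ha))
    nlinarith
  have hb := hcomp.isBounded
  obtain ⟨R, hR⟩ := hb.subset_closedBall 0
  have hred : red f = 0 := by
    by_contra hne
    have hpos : 0 < ‖red f‖ := norm_pos_iff.2 hne
    have h1 := hR (hray ((R + ‖x‖ + 1) / ‖red f‖ ⊔ 0) le_sup_right)
    rw [mem_closedBall_zero_iff] at h1
    set T := (R + ‖x‖ + 1) / ‖red f‖ ⊔ 0 with hTdef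
    have hT0 : 0 ≤ T := le_sup_right
    have h2 : ‖T • red f‖ ≤ ‖x + T • red f‖ + ‖x‖ := by
      have := norm_sub_le (x + T • red f) x
      rwa [add_sub_cancel_left] at this
    rw [norm_smul, Real.norm_of_nonneg hT0] at h2
    have h3 : R + ‖x‖ + 1 ≤ T * ‖red f‖ := by
      rw [← div_le_iff₀ hpos]
      exact le_sup_left
    linarith
  have h := hat_red f b
  rw [hred] at h
  have h0 : hat (0 : EuclideanSpace ℝ (Fin n)) b = 0 := by
    refine Fin.cases ?_ (fun i => ?_) b <;> simp [hat]
  rw [h0] at h
  linarith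

/-- The sum of the arc functionals over a directed cycle vanishes. -/
lemma sum_cycle {l : ℕ} [NeZero l] (w : ZMod l → Fin (n + 1)) (x : EuclideanSpace ℝ (Fin n)) :
    ∑ i, D (w i, w (i + 1)) x = 0 := by
  simp only [D_apply, Finset.sum_sub_distrib]
  have h : ∑ i : ZMod l, hat x (w (i + 1)) = ∑ i : ZMod l, hat x (w i) :=
    Equiv.sum_comp (Equiv.addRight (1 : ZMod l)) (fun i => hat x (w i))
  rw [h, sub_self]

lemma val_neg_one_add {l : ℕ} [NeZero l] : (-1 : ZMod l).val + 1 = l := by
  obtain ⟨m, rfl⟩ := Nat.exists_eq_succ_of_ne_zero (NeZero.ne l)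
  rw [ZMod.val_neg_one]

lemma val_succ' {l : ℕ} [NeZero l] (x : ZMod l) (hx : x ≠ -1) : (x + 1).val = x.val + 1 := by
  have hlt : x.val + 1 < l := by
    have h1 := ZMod.val_lt x
    by_contra h
    have h2 : x.val + 1 = l := by omega
    apply hx
    have h3 : ((x.val + 1 : ℕ) : ZMod l) = 0 := by rw [h2]; simp
    push_cast at h3
    rw [ZMod.natCast_zmod_val] at h3
    exact eq_neg_of_add_eq_zero_left h3
  have : Fact (1 < l) := ⟨by omega⟩
  rw [ZMod.val_add_of_lt (by rw [ZMod.val_one]; exact hlt), ZMod.val_one]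

lemma val_succ {l : ℕ} [NeZero l] (x : ZMod l) (hx : x ≠ -1) : (x + 1).val = x.val + 1 :=
  val_succ' x hx

lemma exists_pos_le {ι : Type*} [Finite ι] (f : ι → ℝ) (hf : ∀ i, 0 < f i) :
    ∃ δ : ℝ, 0 < δ ∧ ∀ i, δ ≤ f i := by
  cases isEmpty_or_nonempty ι with
  | inl h => exact ⟨1, one_pos, fun i => (h.false i).elim⟩
  | inr h =>
    obtain ⟨i, hi⟩ := Finite.exists_min f
    exact ⟨f i, hf i, hi⟩

/-- **Main theorem.** -/
theorem result (n r : ℕ) (A : Finset (Fin (n + 1) × Fin (n + 1)))
    (c : Fin (n + 1) × Fin (n + 1) → ℝ) (hloop : ∀ a ∈ A, a.1 ≠ a.2)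
    (hcomp : IsCompact (alcoved A c)) (hint : (interior (alcoved A c)).Nonempty)
    (hirr : Irredundant A c) :
    Sz r (alcoved A c) ↔ ∀ (l : ℕ) (w : ZMod l → Fin (n + 1)), Function.Injective w →
      (∀ i, (w i, w (i + 1)) ∈ A) → l ≤ r + 1 := by
  classical
  constructor
  · intro hS l w hw hA
    by_contra hlt
    push Not at hlt
    have : NeZero l := ⟨by omega⟩
    have : Fact (1 < l) := ⟨by omega⟩
    choose p hp1 hp2 using fun i : ZMod l => hirr _ (hA i)
    obtain ⟨δ, hδ, hδ'⟩ := exists_pos_le
      (fun x : {x : ZMod l × {a // a ∈ A} // x.2.1 ≠ (w x.1, w (x.1 + 1))} =>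
        c x.1.2.1 - D x.1.2.1 (p x.1.1))
      (fun x => sub_pos.2 (hp2 x.1.1 x.1.2.1 x.1.2.2 x.2))
    have hslack : ∀ i : ZMod l, ∀ a ∈ A, a ≠ (w i, w (i + 1)) → D a (p i) ≤ c a - δ := by
      intro i a ha hne
      have := hδ' ⟨(i, ⟨a, ha⟩), hne⟩
      simp only at this
      linarith
    have hl : (0 : ℝ) < l := by exact_mod_cast (show 0 < l by omega)
    set ε := δ / l with hε
    have hε0 : 0 < ε := div_pos hδ hl
    have hlε : l * ε = δ := by rw [hε]; field_simp
    set u : ZMod l → EuclideanSpace ℝ (Fin n) :=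
      fun i => red (fun z => if z = w (i + 1) then (1 : ℝ) else 0) with hu
    have huD : ∀ i a, D a (u i) ≤ 1 := by
      intro i a
      simp only [hu]
      rw [D_red]
      split_ifs <;> norm_num
    have huD1 : ∀ i, D (w i, w (i + 1)) (u i) = 1 := by
      intro i
      have hne : w i ≠ w (i + 1) := hloop _ (hA i)
      simp only [hu]
      rw [D_red]
      simp [hne]
    set e := (ZMod.finEquiv l).toEquiv with he
    set t : ZMod l → EuclideanSpace ℝ (Fin n) := fun i => -p i - ε • u i with ht
    have hDt : ∀ i a y, D a (y - t i) = D a y + D a (p i) + ε * D a (u i) := by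
      intro i a y
      have : y - t i = y + p i + ε • u i := by simp only [ht]; abel
      rw [this, map_add, map_add, map_smul, smul_eq_mul]
    obtain ⟨y, hy⟩ := hS l (fun j => t (e j)) (by
      intro J hJ
      obtain ⟨k, hk⟩ : ∃ k : ZMod l, k ∉ J.image e := by
        by_contra hall
        push Not at hall
        have h1 : (Finset.univ : Finset (ZMod l)) ⊆ J.image e := fun k _ => hall k
        have h2 := Finset.card_le_card h1
        rw [Finset.card_univ, ZMod.card] at h2
        have h3 := Finset.card_image_le (s := J) (f := e)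
        omega
      -- the point descending along the cycle from `w (k+1)` to `w k`
      set g : ZMod l → ℝ := fun i => -(ε * ((i - k - 1).val : ℝ)) with hg
      set f : Fin (n + 1) → ℝ := fun z => if h : ∃ i, w i = z then g h.choose else 0 with hf
      have hfw : ∀ i, f (w i) = g i := by
        intro i
        have h : ∃ j, w j = w i := ⟨i, rfl⟩
        have : h.choose = i := hw h.choose_spec
        simp only [hf, dif_pos h, this]
      have hgb : ∀ i, -((l - 1) * ε) ≤ g i ∧ g i ≤ 0 := by
        intro i
        have h1 : (i - k - 1).val < l := ZMod.val_lt _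
        have h2 : ((i - k - 1).val : ℝ) ≤ l - 1 := by
          have : (i - k - 1).val + 1 ≤ l := h1
          have : (((i - k - 1).val + 1 : ℕ) : ℝ) ≤ l := by exact_mod_cast this
          push_cast at this
          linarith
        have h3 : (0 : ℝ) ≤ ((i - k - 1).val : ℝ) := Nat.cast_nonneg _
        simp only [hg]
        constructor <;> nlinarith
      have hl1 : (0 : ℝ) ≤ (l - 1) * ε := by
        have : (1 : ℝ) ≤ l := by exact_mod_cast (show 1 ≤ l by omega)
        nlinarith
      have hfb : ∀ z, -((l - 1) * ε) ≤ f z ∧ f z ≤ 0 := by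
        intro z
        by_cases h : ∃ i, w i = z
        · obtain ⟨i, rfl⟩ := h
          rw [hfw]; exact hgb i
        · simp only [hf, dif_neg h]
          exact ⟨by linarith, le_rfl⟩
      have hstep : ∀ i : ZMod l, i ≠ k → f (w (i + 1)) - f (w i) = -ε := by
        intro i hi
        rw [hfw, hfw]
        simp only [hg]
        have h1 : i + 1 - k - 1 = (i - k - 1) + 1 := by ring
        have h2 : (i - k - 1) ≠ -1 := by
          intro h
          apply hi
          have : i - k = 0 := by
            have := congrArg (· + (1 : ZMod l)) h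
            simpa using this
          exact sub_eq_zero.1 this
        have h3 : ((i - k - 1) + 1 : ZMod l).val = (i - k - 1).val + 1 :=
          val_succ _ h2
        rw [h1, h3]
        push_cast
        ring
      refine ⟨red f, ?_⟩
      simp only [Set.mem_iInter]
      intro j hj
      rw [mem_vadd, mem_alcoved]
      intro a ha
      have hjk : e j ≠ k := fun h => hk (h ▸ Finset.mem_image_of_mem e hj)
      rw [hDt, D_red]
      by_cases hcase : a = (w (e j), w (e j + 1))
      · subst hcase
        have h1 := hstep (e j) hjk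
        have h2 : D (w (e j), w (e j + 1)) (p (e j)) = c (w (e j), w (e j + 1)) := hp1 (e j)
        rw [huD1, h2]
        simp only
        rw [h1]
        linarith
      · have h1 := hslack (e j) a ha hcase
        have h2 := huD (e j) a
        have h3 := (hfb a.2).2
        have h4 := (hfb a.1).1
        have h5 : ε * D a (u (e j)) ≤ ε := by nlinarith
        have h6 : (l - 1 : ℝ) * ε + ε = δ := by rw [← hlε]; ring
        linarith)
    simp only [Set.mem_iInter, mem_vadd, mem_alcoved] at hy
    have h1 : ∀ i : ZMod l, D (w i, w (i + 1)) y + ε ≤ 0 := by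
      intro i
      have h := hy (e.symm i) _ (hA i)
      rw [Equiv.apply_symm_apply, hDt, huD1] at h
      have h2 : D (w i, w (i + 1)) (p i) = c (w i, w (i + 1)) := hp1 i
      rw [h2] at h
      linarith
    have h2 : ∑ i : ZMod l, (D (w i, w (i + 1)) y + ε) ≤ 0 :=
      Finset.sum_nonpos fun i _ => h1 i
    rw [Finset.sum_add_distrib, sum_cycle, zero_add, Finset.sum_const, Finset.card_univ,
      ZMod.card, nsmul_eq_mul, hlε] at h2
    linarith
  · intro hcyc s t hJ
    rcases Nat.eq_zero_or_pos s with rfl | hs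
    · exact ⟨0, by simp⟩
    have : Nonempty (Fin s) := ⟨⟨0, hs⟩⟩
    choose k hk using fun a : Fin (n + 1) × Fin (n + 1) =>
      Finite.exists_min (fun j : Fin s => D a (t j))
    set d : Fin (n + 1) → Fin (n + 1) → ℝ := fun a b => c (a, b) + D (a, b) (t (k (a, b))) with hd
    have hne : (alcoved A c).Nonempty := hint.mono interior_subset
    set R : Fin (n + 1) → Fin (n + 1) → Prop := fun a b => (a, b) ∈ A with hR
    obtain ⟨f, hf⟩ := Run7.h956.Potential.exists_potential (A := R) (d := d) 0 (by
      intro b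
      by_contra hb
      set f : Fin (n + 1) → ℝ := fun z =>
        if ∃ k W, Run7.h956.Potential.Wk R d 0 z k W then 0 else 1 with hfdef
      have h1 := no_ray hcomp hne f (by
        intro a ha
        simp only [hfdef]
        by_cases h1 : ∃ k W, Run7.h956.Potential.Wk R d 0 a.1 k W
        · have h2 : ∃ k W, Run7.h956.Potential.Wk R d 0 a.2 k W := by
            obtain ⟨k, W, h⟩ := h1
            exact ⟨k + 1, _, h.snoc a.2 ha⟩
          rw [if_pos h1, if_pos h2]; simp
        · rw [if_neg h1]
          split_ifs <;> norm_num) b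
      have h0 : ∃ k W, Run7.h956.Potential.Wk R d (0 : Fin (n + 1)) 0 k W := ⟨0, 0, .nil 0⟩
      simp only [hfdef, if_neg hb, if_pos h0] at h1
      exact one_ne_zero h1) (by
      intro b
      by_contra hb
      set f : Fin (n + 1) → ℝ := fun z =>
        if ∃ k W, Run7.h956.Potential.Wk R d z 0 k W then 1 else 0 with hfdef
      have h1 := no_ray hcomp hne f (by
        intro a ha
        simp only [hfdef]
        by_cases h1 : ∃ k W, Run7.h956.Potential.Wk R d a.2 0 k W
        · have h2 : ∃ k W, Run7.h956.Potential.Wk R d a.1 0 k W := by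
            obtain ⟨k, W, h⟩ := h1
            have h3 : Run7.h956.Potential.Wk R d a.1 a.2 (0 + 1) (0 + d a.1 a.2) :=
              (Run7.h956.Potential.Wk.nil a.1).snoc a.2 ha
            exact ⟨_, _, h3.append h⟩
          rw [if_pos h1, if_pos h2]; simp
        · rw [if_neg h1]
          split_ifs <;> norm_num) b
      have h0 : ∃ k W, Run7.h956.Potential.Wk R d (0 : Fin (n + 1)) 0 k W := ⟨0, 0, .nil 0⟩
      simp only [hfdef, if_neg hb, if_pos h0] at h1
      exact zero_ne_one h1) (by
      intro l w hl0 hclosed hwalk hinj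
      have : NeZero l := ⟨by omega⟩
      -- the directed cycle
      set w' : ZMod l → Fin (n + 1) := fun i => w i.val with hw'
      have hinj' : Function.Injective w' := fun i j hij =>
        ZMod.val_injective l (hinj _ (ZMod.val_lt i) _ (ZMod.val_lt j) hij)
      have hnext : ∀ i : ZMod l, w' (i + 1) = w (i.val + 1) := by
        intro i
        simp only [hw']
        by_cases h : i = -1
        · subst h
          have h1 : (-1 : ZMod l).val + 1 = l := val_neg_one_add
          rw [neg_add_cancel, h1, hclosed, ZMod.val_zero]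
        · rw [val_succ' i h]
      have hA' : ∀ i, (w' i, w' (i + 1)) ∈ A := by
        intro i
        rw [hnext]
        exact hwalk _ (ZMod.val_lt i)
      have hlr := hcyc l w' hinj' hA'
      obtain ⟨x, hx⟩ := hJ (Finset.univ.image fun i : ZMod l => k (w' i, w' (i + 1))) (by
        refine Finset.card_image_le.trans ?_
        rw [Finset.card_univ, ZMod.card]
        exact hlr)
      simp only [Set.mem_iInter, mem_vadd, mem_alcoved] at hx
      have h1 : ∀ i : ZMod l, D (w' i, w' (i + 1)) x ≤ d (w' i) (w' (i + 1)) := by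
        intro i
        have := hx _ (Finset.mem_image_of_mem _ (Finset.mem_univ i)) _ (hA' i)
        rw [map_sub] at this
        simp only [hd]
        linarith
      have h2 : (0 : ℝ) ≤ ∑ i : ZMod l, d (w' i) (w' (i + 1)) := by
        rw [← sum_cycle w' x]
        exact Finset.sum_le_sum fun i _ => h1 i
      have h3 : ∑ i : ZMod l, d (w' i) (w' (i + 1)) = Run7.h956.Potential.weight d l w := by
        rw [Run7.h956.Potential.weight]
        refine Finset.sum_bij (fun i _ => i.val) (fun i _ => Finset.mem_range.2 (ZMod.val_lt i))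
          (fun i _ j _ h => ZMod.val_injective l h)
          (fun m hm => ⟨(m : ZMod l), Finset.mem_univ _, ?_⟩) (fun i _ => ?_)
        · rw [ZMod.val_natCast, Nat.mod_eq_of_lt (Finset.mem_range.1 hm)]
        · rw [hnext]
      rwa [h3] at h2)
    refine ⟨red f, ?_⟩
    simp only [Set.mem_iInter]
    intro j
    rw [mem_vadd, mem_alcoved]
    intro a ha
    rw [map_sub, D_red]
    have h1 := hf a.1 a.2 ha
    have h2 := hk a j
    simp only [hd] at h1
    have h3 : D a (t (k a)) ≤ D a (t j) := h2
    have h4 : f a.2 - f a.1 ≤ c a + D a (t (k a)) := h1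
    linarith

end Pool.Agent.Results.MP_541d70_co.AlcovedPolytopes
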