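import Mathlib

set_option autoImplicit false

/-!
# MP_541d70_co: the property `Sz(r)` for convex corners (anti-blocking bodies)

A convex body `F` in `ℝ^n` is a convex corner with apex `v` and axes `b_1, ..., b_n` (a basis) if it
lies in the simplicial cone with apex `v` spanned by the `b_i` and contains with each point all
points of the cone with smaller coordinates.  For `1 ≤ r ≤ n` such a body has the property `Sz(r)`
if and only if it is the intersection of its cylinders `F + span {b_i : i ∉ I}`, `|I| = r`, over the
`r`-dimensional coordinate subspaces.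
-/

namespace Pool.Agent.Results.MP_541d70_co.ConvexCorners

open Pointwise Module

/-- The property `Sz(r)`: for every finite family of translates of `F`, if every subfamily of at
most `r + 1` of them has a common point, then all of them have a common point. -/
def Sz {n : ℕ} (r : ℕ) (F : Set (EuclideanSpace ℝ (Fin n))) : Prop :=
  ∀ (s : ℕ) (t : Fin s → EuclideanSpace ℝ (Fin n)),
    (∀ J : Finset (Fin s), J.card ≤ r + 1 → (⋂ j ∈ J, (t j +ᵥ F)).Nonempty) →
      (⋂ j, (t j +ᵥ F)).Nonempty

/-- `F` is a convex corner with apex `v` and axes `b i`: a convex body in the simplicial cone with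
apex `v` spanned by the `b i` which contains with each point `x` all the points `y` of the cone
whose coordinates are at most those of `x`. -/
structure IsCorner {n : ℕ} (b : Basis (Fin n) ℝ (EuclideanSpace ℝ (Fin n)))
    (v : EuclideanSpace ℝ (Fin n)) (F : Set (EuclideanSpace ℝ (Fin n))) : Prop where
  convex : Convex ℝ F
  compact : IsCompact F
  interior : (interior F).Nonempty
  nonneg : ∀ x ∈ F, ∀ i, 0 ≤ b.repr (x - v) i
  down : ∀ x ∈ F, ∀ y, (∀ i, 0 ≤ b.repr (y - v) i ∧ b.repr (y - v) i ≤ b.repr (x - v) i) → y ∈ F

variable {n : ℕ} {b : Basis (Fin n) ℝ (EuclideanSpace ℝ (Fin n))}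
  {v : EuclideanSpace ℝ (Fin n)} {F : Set (EuclideanSpace ℝ (Fin n))}

lemma mem_vadd (x t : EuclideanSpace ℝ (Fin n)) : x ∈ t +ᵥ F ↔ x - t ∈ F := by
  rw [Set.mem_vadd_set_iff_neg_vadd_mem, vadd_eq_add, neg_add_eq_sub]

/-- The vector with coordinates `f` on `I` and `0` outside. -/
noncomputable def vec (b : Basis (Fin n) ℝ (EuclideanSpace ℝ (Fin n))) (f : Fin n → ℝ)
    (I : Finset (Fin n)) : EuclideanSpace ℝ (Fin n) := ∑ i ∈ I, f i • b i

lemma repr_vec (f : Fin n → ℝ) (I : Finset (Fin n)) (k : Fin n) :
    b.repr (vec b f I) k = if k ∈ I then f k else 0 := by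
  classical
  simp only [vec, map_sum, map_smul, Basis.repr_self, Finsupp.coe_finset_sum, Finset.sum_apply,
    Finsupp.smul_apply, Finsupp.single_apply, smul_eq_mul, mul_ite, mul_one, mul_zero]
  rw [Finset.sum_ite_eq' I k]

lemma mem_cyl (I : Finset (Fin n)) (x : EuclideanSpace ℝ (Fin n)) :
    x ∈ F + (Submodule.span ℝ (b '' {i | i ∉ I}) : Set (EuclideanSpace ℝ (Fin n))) ↔
      ∃ y ∈ F, ∀ i ∈ I, b.repr (y - v) i = b.repr (x - v) i := by
  classical
  constructor
  · rintro ⟨y, hy, z, hz, rfl⟩
    refine ⟨y, hy, fun i hi => ?_⟩
    have h0 : b.repr z i = 0 := by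
      have := b.mem_span_image.1 hz
      by_contra h
      exact this (Finsupp.mem_support_iff.2 h) hi
    have : y + z - v = (y - v) + z := by abel
    simp only [this, map_add, Finsupp.add_apply, h0, add_zero]
  · rintro ⟨y, hy, h⟩
    refine ⟨y, hy, x - y, ?_, by simp⟩
    refine b.mem_span_image.2 ?_
    intro i hi hiI
    have h1 := h i hiI
    have h2 : x - y = (x - v) - (y - v) := by abel
    refine (Finsupp.mem_support_iff.1 hi) ?_
    rw [h2, map_sub, Finsupp.sub_apply, h1, sub_self]

/-- **Main theorem.** -/
theorem result (n r : ℕ) (hr : 1 ≤ r) (hrn : r ≤ n)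
    (b : Basis (Fin n) ℝ (EuclideanSpace ℝ (Fin n))) (v : EuclideanSpace ℝ (Fin n))
    (F : Set (EuclideanSpace ℝ (Fin n))) (hF : IsCorner b v F) :
    Sz r F ↔ F = ⋂ I ∈ {I : Finset (Fin n) | I.card = r},
      (F + (Submodule.span ℝ (b '' {i | i ∉ I}) : Set (EuclideanSpace ℝ (Fin n)))) := by
  classical
  constructor
  · intro hS
    apply Set.Subset.antisymm
    · intro x hx
      simp only [Set.mem_iInter]
      intro I _
      exact (mem_cyl (v := v) I x).2 ⟨x, hx, fun _ _ => rfl⟩
    · intro x hx
      simp only [Set.mem_iInter] at hx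
      set c : Fin n → ℝ := fun i => b.repr (x - v) i with hc
      have hx' : ∀ I : Finset (Fin n), I.card = r →
          ∃ y ∈ F, ∀ i ∈ I, b.repr (y - v) i = c i := fun I hI => (mem_cyl I x).1 (hx I hI)
      have hc0 : ∀ i, 0 ≤ c i := by
        intro i
        obtain ⟨I, hiI, -, hI⟩ := Finset.exists_subsuperset_card_eq
          (Finset.subset_univ ({i} : Finset (Fin n))) (by simpa using hr) (by simpa using hrn)
        obtain ⟨y, hy, h⟩ := hx' I hI
        rw [← h i (hiI (Finset.mem_singleton_self i))]
        exact hF.nonneg y hy i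
      have hcI : ∀ I : Finset (Fin n), I.card ≤ r → v + vec b c I ∈ F := by
        intro I hI
        obtain ⟨I', hII', -, hI'⟩ := Finset.exists_subsuperset_card_eq
          (Finset.subset_univ I) hI (by simpa using hrn)
        obtain ⟨y, hy, h⟩ := hx' I' hI'
        refine hF.down y hy _ fun i => ?_
        rw [add_sub_cancel_left, repr_vec]
        split_ifs with hi
        · exact ⟨hc0 i, (h i (hII' hi)).ge⟩
        · exact ⟨le_rfl, hF.nonneg y hy i⟩
      have hxv : x - v = vec b c Finset.univ := by
        rw [vec, hc]
        exact (b.sum_repr (x - v)).symm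
      set t : Fin (n + 1) → EuclideanSpace ℝ (Fin n) :=
        Fin.cons (-(x - v)) (fun i => -(x - v) + c i • b i) with ht
      have ht0 : t 0 = -(x - v) := rfl
      have hts : ∀ i : Fin n, t i.succ = -(x - v) + c i • b i := fun i => rfl
      obtain ⟨p, hp⟩ := hS (n + 1) t (by
        intro J hJ
        set S : Finset (Fin n) := Finset.univ.filter fun i => i.succ ∈ J with hSdef
        have hSJ : S.image Fin.succ ⊆ J := by
          intro j hj
          obtain ⟨i, hi, rfl⟩ := Finset.mem_image.1 hj
          exact (Finset.mem_filter.1 hi).2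
        have hcard : (S.image Fin.succ).card = S.card :=
          Finset.card_image_of_injective _ (Fin.succ_injective n)
        refine ⟨v - (x - v) + vec b c S, ?_⟩
        simp only [Set.mem_iInter]
        intro j hj
        rw [mem_vadd]
        refine Fin.cases (fun hj => ?_) (fun i hj => ?_) j hj
        · have h1 : v - (x - v) + vec b c S - t 0 = v + vec b c S := by rw [ht0]; abel
          rw [h1]
          apply hcI
          have h2 : insert 0 (S.image Fin.succ) ⊆ J := Finset.insert_subset hj hSJ
          have h3 := Finset.card_le_card h2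
          rw [Finset.card_insert_of_notMem, hcard] at h3
          · omega
          · intro h
            obtain ⟨i, -, hi⟩ := Finset.mem_image.1 h
            exact Fin.succ_ne_zero i hi
        · have hiS : i ∈ S := Finset.mem_filter.2 ⟨Finset.mem_univ _, hj⟩
          have h0 : vec b c S = c i • b i + vec b c (S.erase i) :=
            (Finset.add_sum_erase S (fun i => c i • b i) hiS).symm
          have h1 : v - (x - v) + vec b c S - t i.succ = v + vec b c (S.erase i) := by
            rw [hts, h0]; abel
          rw [h1]
          apply hcI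
          have h3 := Finset.card_le_card hSJ
          rw [hcard] at h3
          have h4 := Finset.card_erase_of_mem hiS
          omega)
      simp only [Set.mem_iInter, mem_vadd] at hp
      have hp0 : p + (x - v) ∈ F := by
        have := hp 0
        rwa [ht0, sub_neg_eq_add] at this
      refine hF.down _ hp0 x fun i => ⟨hc0 i, ?_⟩
      have h1 := hF.nonneg _ (hp i.succ) i
      have h2 : p - t i.succ - v = (p + (x - v) - v) - c i • b i := by rw [hts]; abel
      rw [h2, map_sub, Finsupp.sub_apply, map_smul, Finsupp.smul_apply, Basis.repr_self,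
        Finsupp.single_eq_same, smul_eq_mul, mul_one] at h1
      change c i ≤ _
      linarith
  · intro hEq s t hJ
    rcases Nat.eq_zero_or_pos s with rfl | hs
    · exact ⟨0, by simp⟩
    haveI : Nonempty (Fin s) := ⟨⟨0, hs⟩⟩
    choose k hk using fun i : Fin n => Finset.exists_max_image (Finset.univ : Finset (Fin s))
      (fun j => b.repr (t j) i) Finset.univ_nonempty
    set m : Fin n → ℝ := fun i => b.repr (t (k i)) i with hm
    have hmax : ∀ i j, b.repr (t j) i ≤ m i := fun i j => (hk i).2 j (Finset.mem_univ j)
    refine ⟨v + vec b m Finset.univ, ?_⟩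
    simp only [Set.mem_iInter, mem_vadd]
    intro j
    rw [hEq]
    simp only [Set.mem_iInter]
    intro I hI
    rw [mem_cyl (v := v)]
    obtain ⟨x, hx⟩ := hJ (insert j (I.image k)) (by
      refine (Finset.card_insert_le _ _).trans ?_
      have := Finset.card_image_le (s := I) (f := k)
      have hI' : I.card = r := hI
      omega)
    simp only [Set.mem_iInter, mem_vadd] at hx
    have hxj : x - t j ∈ F := hx j (Finset.mem_insert_self _ _)
    have hxk : ∀ i ∈ I, m i ≤ b.repr (x - v) i := by
      intro i hi
      have h1 := hF.nonneg _ (hx (k i) (Finset.mem_insert_of_mem (Finset.mem_image_of_mem k hi))) i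
      have h2 : x - t (k i) - v = (x - v) - t (k i) := by abel
      rw [h2, map_sub, Finsupp.sub_apply] at h1
      change b.repr (t (k i)) i ≤ _
      linarith
    refine ⟨v + vec b (fun i => m i - b.repr (t j) i) I, ?_, ?_⟩
    · refine hF.down _ hxj _ fun i => ?_
      rw [add_sub_cancel_left, repr_vec]
      have h2 : x - t j - v = (x - v) - t j := by abel
      split_ifs with hi
      · refine ⟨sub_nonneg.2 (hmax i j), ?_⟩
        rw [h2, map_sub, Finsupp.sub_apply]
        exact sub_le_sub_right (hxk i hi) _
      · exact ⟨le_rfl, hF.nonneg _ hxj i⟩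
    · intro i hi
      have h3 : v + vec b m Finset.univ - t j - v = vec b m Finset.univ - t j := by abel
      rw [add_sub_cancel_left, repr_vec, h3, map_sub, Finsupp.sub_apply, repr_vec]
      simp [hi]

end Pool.Agent.Results.MP_541d70_co.ConvexCorners
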